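import Mathlib

/-!
# Binary partitions occur along an arithmetic progression of a nested recurrence

We exhibit a solution `w` of the nested recurrence
`w(N) = w(N - w(N - 1)) + w(N - 10)` with `w(5 n + 4) = bin(n)` for all `n`.
-/

set_option autoImplicit false

namespace Pool.Agent.Results.MP_4e7634_nt.BinaryPartitions

/-- `binPart n` is the number of partitions of `n` all of whose parts are powers of `2`
(order ignored). -/
noncomputable def binPart (n : ℕ) : ℕ :=
  Nat.card {p : n.Partition // ∀ i ∈ p.parts, ∃ k : ℕ, i = 2 ^ k}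

/-- The value of the sequence `w` at an arbitrary integer, a negative index being read as `c`. -/
def valueAt (w : ℕ → ℕ) (c : ℕ) (m : ℤ) : ℕ := if m < 0 then c else w m.toNat

/-- `w` is a solution, with constant `c` and initial conditions `w 0, ..., w (k-1)`, of
`w(n) = ∑ i, w(n - w(n - u i)) + ∑ j, w(n - v j)`: all terms are positive and the identity
holds for every `n ≥ k`, where every term at a negative index is read as `c`. -/
structure IsSolution (p q : ℕ) (u : Fin p → ℕ) (v : Fin q → ℕ) (c k : ℕ) (w : ℕ → ℕ) : Prop where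
  pos : ∀ n, 0 < w n
  eqn : ∀ n : ℕ, k ≤ n →
    w n = ∑ i, valueAt w c ((n : ℤ) - (valueAt w c ((n : ℤ) - (u i : ℤ)) : ℤ))
        + ∑ j, valueAt w c ((n : ℤ) - (v j : ℤ))

/-! ### Recurrences for the number of binary partitions -/

/-- Multisets of powers of two with sum `n`. -/
def BP (n : ℕ) : Type := {s : Multiset ℕ // s.sum = n ∧ ∀ i ∈ s, ∃ k : ℕ, i = 2 ^ k}

def equivBP (n : ℕ) : {p : n.Partition // ∀ i ∈ p.parts, ∃ k : ℕ, i = 2 ^ k} ≃ BP n where
  toFun p := ⟨p.1.parts, p.1.parts_sum, p.2⟩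
  invFun s := ⟨⟨s.1, fun {i} hi => by
    obtain ⟨k, hk⟩ := s.2.2 i hi
    rw [hk]; positivity, s.2.1⟩, s.2.2⟩
  left_inv p := by
    rcases p with ⟨⟨p, h1, h2⟩, h3⟩
    rfl
  right_inv s := by
    rcases s with ⟨s, h1, h2⟩
    rfl

lemma binPart_eq (n : ℕ) : binPart n = Nat.card (BP n) := Nat.card_congr (equivBP n)

instance (n : ℕ) : Finite (BP n) := Finite.of_equiv _ (equivBP n)

/-- Binary partitions of `n+1` containing a part `1` correspond to binary partitions of `n`. -/
def equivOne (n : ℕ) : {s : BP (n + 1) // 1 ∈ s.1} ≃ BP n where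
  toFun s := ⟨s.1.1.erase 1, by
    refine ⟨?_, fun i hi => s.1.2.2 i (Multiset.mem_of_mem_erase hi)⟩
    have h := s.1.2.1
    rw [← Multiset.cons_erase s.2, Multiset.sum_cons] at h
    omega⟩
  invFun t := ⟨⟨1 ::ₘ t.1, by
    refine ⟨by rw [Multiset.sum_cons, t.2.1]; omega, fun i hi => ?_⟩
    rcases Multiset.mem_cons.1 hi with h | h
    · exact ⟨0, by simpa using h⟩
    · exact t.2.2 i h⟩, Multiset.mem_cons_self _ _⟩
  left_inv s := by
    rcases s with ⟨⟨s, h1, h2⟩, h3⟩
    apply Subtype.ext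
    apply Subtype.ext
    exact Multiset.cons_erase h3
  right_inv t := by
    rcases t with ⟨t, h1, h2⟩
    apply Subtype.ext
    exact Multiset.erase_cons_head 1 t

lemma even_of_not_one {s : Multiset ℕ} (h : ∀ i ∈ s, ∃ k : ℕ, i = 2 ^ k) (h1 : 1 ∉ s) :
    ∀ i ∈ s, ∃ k : ℕ, i = 2 * 2 ^ k := by
  intro i hi
  obtain ⟨k, hk⟩ := h i hi
  cases k with
  | zero => exact absurd (by simpa [hk] using hi) h1
  | succ k => exact ⟨k, by rw [hk, pow_succ]; ring⟩

lemma map_two_mul_map_div {s : Multiset ℕ} (h : ∀ i ∈ s, ∃ k : ℕ, i = 2 * 2 ^ k) :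
    (s.map (· / 2)).map (2 * ·) = s := by
  rw [Multiset.map_map]
  conv_rhs => rw [← Multiset.map_id s]
  refine Multiset.map_congr rfl fun i hi => ?_
  obtain ⟨k, hk⟩ := h i hi
  simp only [Function.comp_apply, id]
  omega

/-- Binary partitions of `2 m` without a part `1` correspond to binary partitions of `m`. -/
def equivNotOne (m : ℕ) : {s : BP (2 * m) // 1 ∉ s.1} ≃ BP m where
  toFun s := ⟨s.1.1.map (· / 2), by
    have h := even_of_not_one s.1.2.2 s.2
    refine ⟨?_, fun i hi => ?_⟩
    · have h2 := s.1.2.1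
      rw [← map_two_mul_map_div h, Multiset.sum_map_mul_left, Multiset.map_id'] at h2
      omega
    · obtain ⟨j, hj, rfl⟩ := Multiset.mem_map.1 hi
      obtain ⟨k, hk⟩ := h j hj
      exact ⟨k, by omega⟩⟩
  invFun t := ⟨⟨t.1.map (2 * ·), by
    refine ⟨?_, fun i hi => ?_⟩
    · rw [Multiset.sum_map_mul_left, Multiset.map_id', t.2.1]
    · obtain ⟨j, hj, rfl⟩ := Multiset.mem_map.1 hi
      obtain ⟨k, hk⟩ := t.2.2 j hj
      exact ⟨k + 1, by rw [hk, pow_succ]; ring⟩⟩, by
    intro h
    obtain ⟨j, hj, hj2⟩ := Multiset.mem_map.1 h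
    omega⟩
  left_inv s := by
    rcases s with ⟨⟨s, h1, h2⟩, h3⟩
    apply Subtype.ext
    apply Subtype.ext
    exact map_two_mul_map_div (even_of_not_one h2 h3)
  right_inv t := by
    rcases t with ⟨t, h1, h2⟩
    apply Subtype.ext
    change (t.map (2 * ·)).map (· / 2) = t
    rw [Multiset.map_map]
    conv_rhs => rw [← Multiset.map_id t]
    refine Multiset.map_congr rfl fun i _ => ?_
    simp only [Function.comp_apply, id]
    omega

lemma one_mem_of_odd {m : ℕ} (s : BP (2 * m + 1)) : 1 ∈ s.1 := by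
  by_contra h
  have h1 := even_of_not_one s.2.2 h
  have h2 := s.2.1
  rw [← map_two_mul_map_div h1, Multiset.sum_map_mul_left, Multiset.map_id'] at h2
  omega

lemma binPart_zero : binPart 0 = 1 := by
  rw [binPart_eq, Nat.card_eq_one_iff_unique]
  refine ⟨⟨fun a b => ?_⟩, ⟨⟨0, by simp, by simp⟩⟩⟩
  have key : ∀ s : BP 0, s.1 = 0 := by
    intro s
    rw [Multiset.eq_zero_iff_forall_notMem]
    intro i hi
    obtain ⟨k, hk⟩ := s.2.2 i hi
    have h2 := Multiset.le_sum_of_mem hi
    have h3 := s.2.1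
    have h4 : 0 < i := by rw [hk]; positivity
    omega
  exact Subtype.ext ((key a).trans (key b).symm)

lemma binPart_odd (m : ℕ) : binPart (2 * m + 1) = binPart (2 * m) := by
  rw [binPart_eq, binPart_eq, ← Nat.card_congr (equivOne (2 * m))]
  exact Nat.card_congr (Equiv.subtypeUnivEquiv one_mem_of_odd).symm

lemma binPart_even (m : ℕ) : binPart (2 * m + 2) = binPart (2 * m + 1) + binPart (m + 1) := by
  classical
  have e : BP (2 * m + 2) ≃ {s : BP (2 * m + 2) // 1 ∈ s.1} ⊕ {s : BP (2 * m + 2) // 1 ∉ s.1} :=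
    (Equiv.sumCompl (fun s : BP (2 * m + 2) => 1 ∈ s.1)).symm
  rw [binPart_eq, binPart_eq, binPart_eq, Nat.card_congr e, Nat.card_sum,
    Nat.card_congr (equivOne (2 * m + 1))]
  congr 1
  exact Nat.card_congr (equivNotOne (m + 1))

lemma binPart_pos (n : ℕ) : 0 < binPart n := by
  induction n using Nat.strong_induction_on with
  | _ n ih =>
    rcases Nat.even_or_odd' n with ⟨m, hm | hm⟩
    · rcases m with _ | m
      · rw [hm]; simp [binPart_zero]
      · rw [hm, show 2 * (m + 1) = 2 * m + 2 by ring, binPart_even]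
        have := ih (2 * m + 1) (by omega)
        omega
    · rw [hm, binPart_odd]
      exact ih (2 * m) (by omega)

/-- The recurrence used below: `bin(n+2) = bin(n) + bin(⌊n/2⌋+1)`. -/
lemma binPart_add_two (n : ℕ) : binPart (n + 2) = binPart n + binPart (n / 2 + 1) := by
  rcases Nat.even_or_odd' n with ⟨m, hm | hm⟩
  · subst hm
    rw [binPart_even, binPart_odd, show 2 * m / 2 = m by omega]
  · subst hm
    rw [show 2 * m + 1 + 2 = 2 * (m + 1) + 1 by ring, binPart_odd,
      show 2 * (m + 1) = 2 * m + 2 by ring, binPart_even, show (2 * m + 1) / 2 = m by omega]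

/-! ### Explicit values and a growth estimate -/

lemma bp1 : binPart 1 = 1 := by
  rw [show 1 = 2 * 0 + 1 by norm_num, binPart_odd]; exact binPart_zero

lemma bp0 : binPart 0 = 1 := binPart_zero

lemma bp2 : binPart 2 = 2 := by
  have h := binPart_add_two 0
  norm_num [bp0, bp1] at h
  exact h

lemma bp3 : binPart 3 = 2 := by
  have h := binPart_add_two 1
  norm_num [bp1, bp1] at h
  exact h

lemma bp4 : binPart 4 = 4 := by
  have h := binPart_add_two 2
  norm_num [bp2, bp2] at h
  exact h

lemma bp5 : binPart 5 = 4 := by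
  have h := binPart_add_two 3
  norm_num [bp3, bp2] at h
  exact h

lemma bp6 : binPart 6 = 6 := by
  have h := binPart_add_two 4
  norm_num [bp4, bp3] at h
  exact h

lemma bp7 : binPart 7 = 6 := by
  have h := binPart_add_two 5
  norm_num [bp5, bp3] at h
  exact h

lemma bp8 : binPart 8 = 10 := by
  have h := binPart_add_two 6
  norm_num [bp6, bp4] at h
  exact h

lemma bp9 : binPart 9 = 10 := by
  have h := binPart_add_two 7
  norm_num [bp7, bp4] at h
  exact h

lemma bp10 : binPart 10 = 14 := by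
  have h := binPart_add_two 8
  norm_num [bp8, bp5] at h
  exact h

lemma bp11 : binPart 11 = 14 := by
  have h := binPart_add_two 9
  norm_num [bp9, bp5] at h
  exact h

lemma bp12 : binPart 12 = 20 := by
  have h := binPart_add_two 10
  norm_num [bp10, bp6] at h
  exact h

lemma bp13 : binPart 13 = 20 := by
  have h := binPart_add_two 11
  norm_num [bp11, bp6] at h
  exact h

lemma bp14 : binPart 14 = 26 := by
  have h := binPart_add_two 12
  norm_num [bp12, bp7] at h
  exact h

lemma bp15 : binPart 15 = 26 := by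
  have h := binPart_add_two 13
  norm_num [bp13, bp7] at h
  exact h

lemma bp16 : binPart 16 = 36 := by
  have h := binPart_add_two 14
  norm_num [bp14, bp8] at h
  exact h

lemma bp17 : binPart 17 = 36 := by
  have h := binPart_add_two 15
  norm_num [bp15, bp8] at h
  exact h

lemma bp18 : binPart 18 = 46 := by
  have h := binPart_add_two 16
  norm_num [bp16, bp9] at h
  exact h

lemma bp19 : binPart 19 = 46 := by
  have h := binPart_add_two 17
  norm_num [bp17, bp9] at h
  exact h

lemma bp20 : binPart 20 = 60 := by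
  have h := binPart_add_two 18
  norm_num [bp18, bp10] at h
  exact h

lemma bp21 : binPart 21 = 60 := by
  have h := binPart_add_two 19
  norm_num [bp19, bp10] at h
  exact h

lemma bp22 : binPart 22 = 74 := by
  have h := binPart_add_two 20
  norm_num [bp20, bp11] at h
  exact h

lemma bp23 : binPart 23 = 74 := by
  have h := binPart_add_two 21
  norm_num [bp21, bp11] at h
  exact h

lemma bp24 : binPart 24 = 94 := by
  have h := binPart_add_two 22
  norm_num [bp22, bp12] at h
  exact h

lemma bp25 : binPart 25 = 94 := by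
  have h := binPart_add_two 23
  norm_num [bp23, bp12] at h
  exact h

lemma bp26 : binPart 26 = 114 := by
  have h := binPart_add_two 24
  norm_num [bp24, bp13] at h
  exact h

lemma bp27 : binPart 27 = 114 := by
  have h := binPart_add_two 25
  norm_num [bp25, bp13] at h
  exact h

lemma bp28 : binPart 28 = 140 := by
  have h := binPart_add_two 26
  norm_num [bp26, bp14] at h
  exact h

lemma bp29 : binPart 29 = 140 := by
  have h := binPart_add_two 27
  norm_num [bp27, bp14] at h
  exact h

lemma bp30 : binPart 30 = 166 := by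
  have h := binPart_add_two 28
  norm_num [bp28, bp15] at h
  exact h

lemma bp31 : binPart 31 = 166 := by
  have h := binPart_add_two 29
  norm_num [bp29, bp15] at h
  exact h

lemma ten_le_binPart (m : ℕ) (hm : 8 ≤ m) : 10 ≤ binPart m := by
  induction m using Nat.strong_induction_on with
  | _ m ih =>
    rcases Nat.lt_or_ge m 10 with h | h
    · interval_cases m
      · exact bp8.ge
      · exact bp9.ge
    · obtain ⟨n, rfl⟩ : ∃ n, m = n + 2 := ⟨m - 2, by omega⟩
      have h1 := ih n (by omega) (by omega)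
      rw [binPart_add_two]
      omega

lemma binPart_large (m : ℕ) (hm : 30 ≤ m) : 5 * (m + 1) < binPart m := by
  induction m using Nat.strong_induction_on with
  | _ m ih =>
    rcases Nat.lt_or_ge m 32 with h | h
    · interval_cases m
      · rw [bp30]; norm_num
      · rw [bp31]; norm_num
    · obtain ⟨n, rfl⟩ : ∃ n, m = n + 2 := ⟨m - 2, by omega⟩
      have h1 := ih n (by omega) (by omega)
      have h2 := ten_le_binPart (n / 2 + 1) (by omega)
      rw [binPart_add_two]
      omega

lemma fib_large (n : ℕ) (hn : 10 ≤ n) : 5 * n + 2 < Nat.fib (n + 2) := by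
  induction n using Nat.strong_induction_on with
  | _ n ih =>
    rcases Nat.lt_or_ge n 12 with h | h
    · interval_cases n
      · norm_num [Nat.fib_add_two]
      · norm_num [Nat.fib_add_two]
    · obtain ⟨m, rfl⟩ : ∃ m, n = m + 2 := ⟨n - 2, by omega⟩
      have h1 := ih m (by omega) (by omega)
      have h2 := ih (m + 1) (by omega) (by omega)
      have h3 : Nat.fib (m + 2 + 2) = Nat.fib (m + 2) + Nat.fib (m + 1 + 2) := by
        rw [Nat.fib_add_two]
      omega

/-! ### The solution -/

/-- The solution: `bin` on `4 mod 5`, `5 ⌈n/2⌉` on `3 mod 5`, the constant `3` on `2 mod 5`,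
Fibonacci numbers on `1 mod 5` and the constant `5` on `0 mod 5`. -/
noncomputable def sol (N : ℕ) : ℕ :=
  if N % 5 = 0 then 5
  else if N % 5 = 1 then Nat.fib (N / 5 + 2)
  else if N % 5 = 2 then 3
  else if N % 5 = 3 then max 1 (5 * ((N / 5 + 1) / 2))
  else binPart (N / 5)

lemma sol0 (n : ℕ) : sol (5 * n) = 5 := by
  simp [sol]

lemma sol1 (n : ℕ) : sol (5 * n + 1) = Nat.fib (n + 2) := by
  have h1 : (5 * n + 1) % 5 = 1 := by omega
  have h2 : (5 * n + 1) / 5 = n := by omega
  simp [sol, h1, h2]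

lemma sol2 (n : ℕ) : sol (5 * n + 2) = 3 := by
  have h1 : (5 * n + 2) % 5 = 2 := by omega
  simp [sol, h1]

lemma sol3 (n : ℕ) : sol (5 * n + 3) = max 1 (5 * ((n + 1) / 2)) := by
  have h1 : (5 * n + 3) % 5 = 3 := by omega
  have h2 : (5 * n + 3) / 5 = n := by omega
  simp [sol, h1, h2]

lemma sol4 (n : ℕ) : sol (5 * n + 4) = binPart n := by
  have h1 : (5 * n + 4) % 5 = 4 := by omega
  have h2 : (5 * n + 4) / 5 = n := by omega
  simp [sol, h1, h2]

lemma sol_pos (N : ℕ) : 0 < sol N := by
  unfold sol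
  split_ifs
  · norm_num
  · exact Nat.fib_pos.2 (by omega)
  · norm_num
  · exact lt_of_lt_of_le Nat.one_pos (le_max_left _ _)
  · exact binPart_pos _

lemma valueAt_nat (w : ℕ → ℕ) (c : ℕ) {m : ℤ} (j : ℕ) (h : m = (j : ℤ)) :
    valueAt w c m = w j := by
  subst h
  simp [valueAt]

lemma valueAt_neg (w : ℕ → ℕ) (c : ℕ) {m : ℤ} (h : m < 0) : valueAt w c m = c := by
  simp [valueAt, h]

lemma sol_eqn (N : ℕ) (hN : 200 ≤ N) :
    sol N = valueAt sol 0 ((N : ℤ) - (valueAt sol 0 ((N : ℤ) - 1) : ℤ))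
      + valueAt sol 0 ((N : ℤ) - 10) := by
  obtain ⟨n, r, hr, rfl⟩ : ∃ n r, r < 5 ∧ N = 5 * n + r :=
    ⟨N / 5, N % 5, Nat.mod_lt _ (by norm_num), by omega⟩
  obtain ⟨m, rfl⟩ : ∃ m, n = m + 2 := ⟨n - 2, by omega⟩
  have hm : 30 ≤ m := by omega
  interval_cases r
  · -- class 0: the constant 5
    rw [valueAt_nat sol 0 (m := ((5 * (m + 2) + 0 : ℕ) : ℤ) - 1) (5 * (m + 1) + 4)
      (by push_cast; ring), sol4]
    rw [valueAt_nat sol 0 (m := ((5 * (m + 2) + 0 : ℕ) : ℤ) - 10) (5 * m) (by push_cast; ring),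
      sol0, add_zero, sol0]
    have h := binPart_large (m + 1) (by omega)
    rw [valueAt_neg sol 0 (by push_cast; omega)]
  · -- class 1: Fibonacci numbers
    rw [valueAt_nat sol 0 (m := ((5 * (m + 2) + 1 : ℕ) : ℤ) - 1) (5 * (m + 2))
      (by push_cast; ring), sol0]
    rw [valueAt_nat sol 0 (m := ((5 * (m + 2) + 1 : ℕ) : ℤ) - 10) (5 * m + 1)
      (by push_cast; ring), sol1]
    rw [valueAt_nat sol 0 (5 * (m + 1) + 1) (by push_cast; ring), sol1, sol1]
    rw [show m + 2 + 2 = (m + 2) + 2 by ring, Nat.fib_add_two, show m + 1 + 2 = m + 2 + 1 by ring]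
    ring
  · -- class 2: the constant 3
    rw [valueAt_nat sol 0 (m := ((5 * (m + 2) + 2 : ℕ) : ℤ) - 1) (5 * (m + 2) + 1)
      (by push_cast; ring), sol1]
    rw [valueAt_nat sol 0 (m := ((5 * (m + 2) + 2 : ℕ) : ℤ) - 10) (5 * m + 2)
      (by push_cast; ring), sol2, sol2]
    have h := fib_large (m + 2) (by omega)
    rw [valueAt_neg sol 0 (by push_cast; omega)]
  · -- class 3: the linear class
    rw [valueAt_nat sol 0 (m := ((5 * (m + 2) + 3 : ℕ) : ℤ) - 1) (5 * (m + 2) + 2)
      (by push_cast; ring), sol2]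
    rw [valueAt_nat sol 0 (m := ((5 * (m + 2) + 3 : ℕ) : ℤ) - 10) (5 * m + 3)
      (by push_cast; ring), sol3, sol3]
    rw [valueAt_nat sol 0 (5 * (m + 2)) (by push_cast; ring), sol0]
    omega
  · -- class 4: binary partitions
    rw [valueAt_nat sol 0 (m := ((5 * (m + 2) + 4 : ℕ) : ℤ) - 1) (5 * (m + 2) + 3)
      (by push_cast; ring), sol3]
    rw [valueAt_nat sol 0 (m := ((5 * (m + 2) + 4 : ℕ) : ℤ) - 10) (5 * m + 4)
      (by push_cast; ring), sol4, sol4]
    rw [valueAt_nat sol 0 (5 * (m / 2 + 1) + 4) (by push_cast; omega), sol4,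
      binPart_add_two]
    ring

/-- **Binary partitions as a subsequence of a nested recurrence.**  There are data
`p, q, u, v, c, k`, a solution `w` of the corresponding nested recurrence and integers `a ≥ 1`,
`b ≥ 0` with `w (a n + b) = bin(n)` for all `n ≥ 0`. -/
theorem result :
    ∃ (p q : ℕ) (u : Fin p → ℕ) (v : Fin q → ℕ) (c k : ℕ) (w : ℕ → ℕ) (a b : ℕ),
      (∀ i, 0 < u i) ∧ (∀ j, 0 < v j) ∧ IsSolution p q u v c k w ∧ 1 ≤ a ∧
        ∀ n, w (a * n + b) = binPart n := by
  refine ⟨1, 1, fun _ => 1, fun _ => 10, 0, 200, sol, 5, 4, fun _ => by norm_num,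
    fun _ => by norm_num, ⟨sol_pos, fun n hn => ?_⟩, by norm_num, sol4⟩
  have h := sol_eqn n hn
  simpa using h

end Pool.Agent.Results.MP_4e7634_nt.BinaryPartitions
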